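import Mathlib
import Pool.Agent.H23.PHad

set_option autoImplicit false
set_option maxSynthPendingDepth 3
open Finset Pool.Agent.H23.PHad

namespace Pool.Agent.Results.MP_afadd1_co.DimSix

theorem sum_update {n v : ℕ} (F : (Fin n → Fin v) → ℤ) (c : Fin n) :
    ∑ i : Fin n → Fin v, ∑ u : Fin v, F (Function.update i c u) = v * ∑ i, F i := by
  have hinv : Function.Involutive
      (fun p : (Fin n → Fin v) × Fin v => (Function.update p.1 c p.2, p.1 c)) := by
    rintro ⟨i, u⟩
    simp
  have h1 := Equiv.sum_comp hinv.toPerm (fun p : (Fin n → Fin v) × Fin v => F p.1)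
  rw [Fintype.sum_prod_type, Fintype.sum_prod_type] at h1
  simp only [Function.Involutive.coe_toPerm, sum_const, card_univ, Fintype.card_fin,
    nsmul_eq_mul] at h1
  rw [h1, mul_sum]

theorem sum_zero {n v : ℕ} (hv : 0 < v) (g : (Fin n → Fin v) → ℤ) (h : Fin v → Fin v → ℤ)
    (c d : Fin n) (hcd : c ≠ d) (hc : ∀ i u, g (Function.update i c u) = g i)
    (hd : ∀ i u, g (Function.update i d u) = g i) (hh : ∑ w, ∑ u, h u w = 0) :
    ∑ i, g i * h (i c) (i d) = 0 := by
  have h1 := sum_update (fun i => g i * h (i c) (i d)) c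
  simp only [hc, Function.update_self, Function.update_of_ne hcd.symm] at h1
  have h2 := sum_update (fun i => ∑ u, g i * h u (i d)) d
  simp only [hd, Function.update_self, ← mul_sum, hh, mul_zero, sum_const_zero] at h2
  simp only [← mul_sum] at h1
  rw [h1] at h2
  have h3 : (v : ℤ) ≠ 0 := by exact_mod_cast hv.ne'
  rcases mul_eq_zero.1 h2.symm with h | h
  · exact absurd h h3
  · rcases mul_eq_zero.1 h with h | h
    · exact absurd h h3
    · exact h

/-- the first of the two coordinates that index the columns used for coordinate `l` -/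
def c1 {n : ℕ} (hn : 6 ≤ n) (l : Fin n) : Fin n :=
  if (l : ℕ) = 2 ∨ (l : ℕ) = 3 then ⟨4, by omega⟩
  else if (l : ℕ) = 4 ∨ (l : ℕ) = 5 then ⟨0, by omega⟩ else ⟨2, by omega⟩

/-- the second of the two coordinates that index the columns used for coordinate `l` -/
def c2 {n : ℕ} (hn : 6 ≤ n) (l : Fin n) : Fin n :=
  if (l : ℕ) = 2 ∨ (l : ℕ) = 3 then ⟨5, by omega⟩
  else if (l : ℕ) = 4 ∨ (l : ℕ) = 5 then ⟨1, by omega⟩ else ⟨3, by omega⟩

theorem c_ne {n : ℕ} (hn : 6 ≤ n) (l : Fin n) :
    c1 hn l ≠ l ∧ c2 hn l ≠ l ∧ c1 hn l ≠ c2 hn l := by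
  simp only [c1, c2, ne_eq, Fin.ext_iff]
  split_ifs <;> simp <;> omega

theorem c_sep {n : ℕ} (hn : 6 ≤ n) (l m : Fin n) (h : c1 hn m = l ∨ c2 hn m = l) (c : Fin n)
    (hc : c = c1 hn l ∨ c = c2 hn l) : m ≠ c ∧ c1 hn m ≠ c ∧ c2 hn m ≠ c ∧ l ≠ c := by
  simp only [c1, c2, ne_eq, Fin.ext_iff] at h hc ⊢
  split_ifs at h hc ⊢ <;> simp at h hc ⊢ <;> omega

/-- For every `n ≥ 6` and `t ≥ 1` there is an `n`-dimensional Hadamard matrix of order `2t`. -/
theorem result :
    ∀ n : ℕ, 6 ≤ n → ∀ t : ℕ, 1 ≤ t →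
      ∃ A : (Fin n → Fin (2 * t)) → ℤ,
        (∀ i, A i = 1 ∨ A i = -1) ∧
        ∀ l : Fin n, ∀ x y : Fin (2 * t),
          (∑ i : Fin n → Fin (2 * t),
              A (Function.update i l x) * A (Function.update i l y)) =
            if x = y then ((2 * t : ℕ) : ℤ) ^ n else 0 := by
  intro n hn t ht
  obtain ⟨M0, h1, h2⟩ := PH_sq t ht
  let M : Fin (2 * t) → Fin (2 * t) → Fin (2 * t) → ℤ :=
    fun a u w => M0 a (finProdFinEquiv (w, u))
  have hM1 : ∀ a u w, M a u w * M a u w = 1 := by
    intro a u w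
    rcases h1 a (finProdFinEquiv (w, u)) with h | h <;> simp [M, h]
  have hM2 : ∀ a b, a ≠ b → ∑ w, ∑ u, M a u w * M b u w = 0 := by
    intro a b hab
    rw [← h2 a b hab, ← finProdFinEquiv.sum_comp (fun c => M0 a c * M0 b c),
      Fintype.sum_prod_type]
  let T : (Fin n → Fin (2 * t)) → Fin n → ℤ := fun i m => M (i m) (i (c1 hn m)) (i (c2 hn m))
  have hA : ∀ i, (∏ m, T i m) * (∏ m, T i m) = 1 := by
    intro i
    rw [← prod_mul_distrib]
    exact prod_eq_one (fun m _ => hM1 _ _ _)
  refine ⟨fun i => ∏ m, T i m, fun i => mul_self_eq_one_iff.1 (hA i), ?_⟩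
  intro l x y
  split_ifs with hxy
  · subst hxy
    simp [hA]
  · let g : (Fin n → Fin (2 * t)) → ℤ := fun i =>
      ∏ m ∈ univ.erase l, (T (Function.update i l x) m * T (Function.update i l y) m)
    obtain ⟨n1, n2, n3⟩ := c_ne hn l
    have hg : ∀ c, (c = c1 hn l ∨ c = c2 hn l) → ∀ i u, g (Function.update i c u) = g i := by
      intro c hc i u
      refine prod_congr rfl (fun m hm => ?_)
      have hml : m ≠ l := (mem_erase.1 hm).1
      by_cases hm' : c1 hn m = l ∨ c2 hn m = l
      · obtain ⟨e1, e2, e3, e4⟩ := c_sep hn l m hm' c hc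
        have key : ∀ z k, k ≠ c → Function.update (Function.update i c u) l z k
            = Function.update i l z k := by
          intro z k hk
          by_cases e : k = l
          · subst e; simp
          · simp [Function.update_of_ne e, Function.update_of_ne hk]
        simp only [T, key _ _ e1, key _ _ e2, key _ _ e3]
      · push Not at hm'
        simp only [T, Function.update_of_ne hml, Function.update_of_ne hm'.1,
          Function.update_of_ne hm'.2, hM1]
    rw [← sum_zero (by omega) g (fun u w => M x u w * M y u w) (c1 hn l) (c2 hn l) n3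
      (hg _ (Or.inl rfl)) (hg _ (Or.inr rfl)) (hM2 x y hxy)]
    refine sum_congr rfl (fun i _ => ?_)
    rw [← prod_mul_distrib, ← prod_erase_mul _ _ (mem_univ l)]
    simp only [g, T, Function.update_self, Function.update_of_ne n1, Function.update_of_ne n2]

end Pool.Agent.Results.MP_afadd1_co.DimSix
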